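import Pool.Agent.Helper14.TH7.StD

/-!
# Project TH, levels `2·7^n`: module ExA (the edge function of a solution of the relation)

Adapted from Helper70/TH/M_ExA.lean (the case of the prime five).
-/

set_option autoImplicit false

namespace Pool.Agent.Helper16.TH7

open Pool.Agent.Helper14.TH7 Pool.Agent.Helper84.S7 Pool.Agent.Helper93.TLH

private theorem ndm {a b : ℤ} (ha : ¬ (7 : ℤ) ∣ a) (hb : ¬ (7 : ℤ) ∣ b) : ¬ (7 : ℤ) ∣ a * b := by
  intro h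
  rcases (Int.prime_ofNat_iff.2 (by norm_num : Nat.Prime 7)).dvd_or_dvd h with h | h
  · exact ha h
  · exact hb h

private theorem cop {r : ℕ} {a : ℤ} (h : ¬ (7 : ℤ) ∣ a) : IsUnit ((a : ℤ) : ZMod (7 ^ r)) := by
  have h1 : IsCoprime a 7 := by
    have := (Int.prime_ofNat_iff.2 (by norm_num : Nat.Prime 7)).coprime_iff_not_dvd.2 h
    exact this.symm
  have h2 : IsCoprime a ((7 ^ r : ℕ) : ℤ) := by
    push_cast
    exact h1.pow_right
  exact (ZMod.coe_int_isUnit_iff_isCoprime a (7 ^ r)).2 h2.symm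

private theorem den {r : ℕ} {a c : ℤ} (x : ZMod (7 ^ r)) (h : ¬ (7 : ℤ) ∣ a) :
    IsUnit ((a : ZMod (7 ^ r)) + 7 * c * x) := by
  have : NeZero (7 ^ r) := ⟨pow_ne_zero _ (by norm_num)⟩
  have : (a : ZMod (7 ^ r)) + 7 * c * x = ((a + 7 * c * (x.val : ℤ) : ℤ) : ZMod (7 ^ r)) := by
    push_cast
    rw [ZMod.natCast_zmod_val]
  rw [this]
  apply cop
  intro h3
  exact h ((dvd_add_left (⟨c * (x.val : ℤ), by ring⟩ : (7 : ℤ) ∣ 7 * c * (x.val : ℤ))).1 h3)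

private theorem res {a b c d : ℤ} (h : ¬ (7 : ℤ) ∣ a * d - 7 * (b * c)) :
    ¬ (7 : ℤ) ∣ a ∧ ¬ (7 : ℤ) ∣ d := by
  constructor
  · rintro ⟨k, rfl⟩
    exact h ⟨k * d - b * c, by ring⟩
  · rintro ⟨k, rfl⟩
    exact h ⟨a * k - b * c, by ring⟩

/-- the matrix (a b; 7c d) has the coordinates (x, y) -/
private def Pt {r s : ℕ} (a b c d : ℤ) (x : ZMod (7 ^ r)) (y : ZMod (7 ^ s)) : Prop :=
  ¬ (7 : ℤ) ∣ a ∧ ¬ (7 : ℤ) ∣ d ∧ (b : ZMod (7 ^ r)) = x * a ∧ (c : ZMod (7 ^ s)) = y * d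

private theorem pt_mk (r s : ℕ) {a b c d : ℤ} (ha : ¬ (7 : ℤ) ∣ a) (hd : ¬ (7 : ℤ) ∣ d) :
    ∃ (x : ZMod (7 ^ r)) (y : ZMod (7 ^ s)), Pt a b c d x y := by
  refine ⟨(b : ZMod (7 ^ r)) * (a : ZMod (7 ^ r))⁻¹, (c : ZMod (7 ^ s)) * (d : ZMod (7 ^ s))⁻¹,
    ha, hd, ?_, ?_⟩
  · rw [mul_assoc, ZMod.inv_mul_of_unit _ (cop ha), mul_one]
  · rw [mul_assoc, ZMod.inv_mul_of_unit _ (cop hd), mul_one]

private theorem pt_scale {r s : ℕ} {a b c d k A B C D : ℤ} {x : ZMod (7 ^ r)} {y : ZMod (7 ^ s)}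
    (h : Pt a b c d x y) (hk : ¬ (7 : ℤ) ∣ k) (hA : A = k * a) (hB : B = k * b) (hC : C = k * c)
    (hD : D = k * d) : Pt A B C D x y := by
  obtain ⟨h1, h2, h3, h4⟩ := h
  subst hA hB hC hD
  refine ⟨ndm hk h1, ndm hk h2, ?_, ?_⟩
  · push_cast
    rw [h3]
    ring
  · push_cast
    rw [h4]
    ring

private theorem pt_mul {r s : ℕ} {a b c d : ℤ} {x : ZMod (7 ^ r)} {y : ZMod (7 ^ s)}
    (h : Pt a b c d x y) {α β γ δ : ℤ} (hα : ¬ (7 : ℤ) ∣ α) (hδ : ¬ (7 : ℤ) ∣ δ) :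
    Pt (a * α + 7 * b * γ) (a * β + b * δ) (c * α + d * γ) (7 * c * β + d * δ)
      (((β : ZMod (7 ^ r)) + (δ : ZMod (7 ^ r)) * x) *
        ((α : ZMod (7 ^ r)) + 7 * (γ : ZMod (7 ^ r)) * x)⁻¹)
      (((γ : ZMod (7 ^ s)) + (α : ZMod (7 ^ s)) * y) *
        ((δ : ZMod (7 ^ s)) + 7 * (β : ZMod (7 ^ s)) * y)⁻¹) := by
  obtain ⟨h1, h2, h3, h4⟩ := h
  have u1 := ZMod.inv_mul_of_unit _ (den (r := r) (a := α) (c := γ) x hα)
  have u2 := ZMod.inv_mul_of_unit _ (den (r := s) (a := δ) (c := β) y hδ)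
  refine ⟨?_, ?_, ?_, ?_⟩
  · intro h
    exact ndm h1 hα ((dvd_add_left (⟨b * γ, by ring⟩ : (7 : ℤ) ∣ 7 * b * γ)).1 h)
  · intro h
    exact ndm h2 hδ ((dvd_add_right (⟨c * β, by ring⟩ : (7 : ℤ) ∣ 7 * c * β)).1 h)
  · push_cast
    rw [h3]
    linear_combination (-((a : ZMod (7 ^ r)) * ((β : ZMod (7 ^ r)) + δ * x))) * u1
  · push_cast
    rw [h4]
    linear_combination (-((d : ZMod (7 ^ s)) * ((γ : ZMod (7 ^ s)) + α * y))) * u2

private theorem pt_left {r s : ℕ} {a b c d : ℤ} {x : ZMod (7 ^ r)} {y : ZMod (7 ^ s)}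
    (h : Pt a b c d x y) {α β γ δ A B C D : ℤ} (hα : ¬ (7 : ℤ) ∣ α) (hδ : ¬ (7 : ℤ) ∣ δ)
    (hA : A = α * a + 7 ^ r * β * (7 * c)) (hB : B = α * b + 7 ^ r * β * d)
    (hC : C = 7 ^ s * γ * a + δ * c) (hD : D = 7 ^ (s + 1) * γ * b + δ * d) : Pt A B C D x y := by
  obtain ⟨h1, h2, h3, h4⟩ := h
  subst hA hB hC hD
  have z1 : ((7 : ℤ) ^ r : ZMod (7 ^ r)) = 0 := by
    have := ZMod.natCast_self (7 ^ r)
    push_cast at this ⊢
    exact this
  have z2 : ((7 : ℤ) ^ s : ZMod (7 ^ s)) = 0 := by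
    have := ZMod.natCast_self (7 ^ s)
    push_cast at this ⊢
    exact this
  refine ⟨?_, ?_, ?_, ?_⟩
  · intro h
    exact ndm hα h1 ((dvd_add_left
      (⟨7 ^ r * β * c, by ring⟩ : (7 : ℤ) ∣ 7 ^ r * β * (7 * c))).1 h)
  · intro h
    exact ndm hδ h2 ((dvd_add_right
      (⟨7 ^ s * γ * b, by ring⟩ : (7 : ℤ) ∣ 7 ^ (s + 1) * γ * b)).1 h)
  · push_cast at z1 ⊢
    rw [z1, h3]
    ring
  · push_cast at z2 ⊢
    rw [pow_succ, z2, h4]
    ring

/-! ### the function -/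

private noncomputable def PX (r : ℕ) (a b : ℤ) : ZMod (7 ^ r) :=
  ((b : ℤ) : ZMod (7 ^ r)) * ((a : ℤ) : ZMod (7 ^ r))⁻¹

private theorem px_eq {r : ℕ} {a b A B : ℤ} {x : ZMod (7 ^ r)} (hA : A = a) (hB : B = b)
    (ha : ¬ (7 : ℤ) ∣ a) (h : (b : ZMod (7 ^ r)) = x * a) : PX r A B = x := by
  subst hA hB
  unfold PX
  rw [h, mul_assoc, ZMod.mul_inv_of_unit _ (cop ha), mul_one]

section

variable {R : Type} [AddCommGroup R] {r s : ℕ} (F : Fin 3 → ZMod (7 ^ r) → ZMod (7 ^ s) → R)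

private noncomputable def W (a b c d : ℤ) : R :=
  if c % 7 = 0 then F 0 (PX r a b) (PX s d (c / 7))
  else if (c - 2 * d) % 7 = 0 then F 1 (PX r (a - 2 * b) b) (PX s d ((c - 2 * d) / 7))
  else if (c - 4 * d) % 7 = 0 then F 2 (PX r (a - 4 * b) b) (PX s d ((c - 4 * d) / 7))
  else -kH F (PX r (a + 2 * b) (-a - b)) (PX s (-c - d) ((c + 2 * d) / 7))

private noncomputable def V (a b c d : ℤ) : R :=
  if c % 7 = 0 ∨ (c - 2 * d) % 7 = 0 ∨ (c - 4 * d) % 7 = 0 ∨ (c + 2 * d) % 7 = 0 then W F a b c d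
  else -W F (2 * b) (-a) (2 * d) (-c)

/-- `v` is the value of a matrix in one of the four classes `0`, `2`, `4`, `5`. -/
private def Val (a b c d : ℤ) (v : R) : Prop :=
  (∃ (c' : ℤ) (x : ZMod (7 ^ r)) (y : ZMod (7 ^ s)), c = 7 * c' ∧ Pt a b c' d x y ∧ v = F 0 x y) ∨
  (∃ (c' : ℤ) (x : ZMod (7 ^ r)) (y : ZMod (7 ^ s)), c = 7 * c' + 2 * d ∧
    Pt (a - 2 * b) b c' d x y ∧ v = F 1 x y) ∨
  (∃ (c' : ℤ) (x : ZMod (7 ^ r)) (y : ZMod (7 ^ s)), c = 7 * c' + 4 * d ∧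
    Pt (a - 4 * b) b c' d x y ∧ v = F 2 x y) ∨
  (∃ (c' : ℤ) (x : ZMod (7 ^ r)) (y : ZMod (7 ^ s)), c + 2 * d = 7 * c' ∧
    Pt (a + 2 * b) (-a - b) c' (-c - d) x y ∧ v = -kH F x y)

variable {F}

private theorem val_W {a b c d : ℤ} {v : R} (h : Val F a b c d v) : W F a b c d = v := by
  unfold W
  rcases h with ⟨c', x, y, e, ⟨h1, h2, h3, h4⟩, rfl⟩ | ⟨c', x, y, e, ⟨h1, h2, h3, h4⟩, rfl⟩ |
    ⟨c', x, y, e, ⟨h1, h2, h3, h4⟩, rfl⟩ | ⟨c', x, y, e, ⟨h1, h2, h3, h4⟩, rfl⟩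
  · rw [if_pos (by omega), px_eq rfl rfl h1 h3, px_eq rfl (by omega) h2 h4]
  · rw [if_neg (by omega), if_pos (by omega), px_eq rfl rfl h1 h3, px_eq rfl (by omega) h2 h4]
  · rw [if_neg (by omega), if_neg (by omega), if_pos (by omega), px_eq rfl rfl h1 h3,
      px_eq rfl (by omega) h2 h4]
  · rw [if_neg (by omega), if_neg (by omega), if_neg (by omega), px_eq rfl rfl h1 h3,
      px_eq rfl (by omega) h2 h4]

private theorem val_V {a b c d : ℤ} {v : R} (h : Val F a b c d v) : V F a b c d = v := by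
  have h0 := val_W h
  unfold V
  rcases h with ⟨c', x, y, e, ⟨h1, h2, h3, h4⟩, -⟩ | ⟨c', x, y, e, ⟨h1, h2, h3, h4⟩, -⟩ |
    ⟨c', x, y, e, ⟨h1, h2, h3, h4⟩, -⟩ | ⟨c', x, y, e, ⟨h1, h2, h3, h4⟩, -⟩
  · rw [if_pos (by omega), h0]
  · rw [if_pos (by omega), h0]
  · rw [if_pos (by omega), h0]
  · rw [if_pos (by omega), h0]

private theorem val_VS {a b c d : ℤ} {v : R} (h : Val F (2 * b) (-a) (2 * d) (-c) v) :
    V F a b c d = -v := by
  have h0 := val_W h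
  unfold V
  rcases h with ⟨c', x, y, e, ⟨h1, h2, h3, h4⟩, -⟩ | ⟨c', x, y, e, ⟨h1, h2, h3, h4⟩, -⟩ |
    ⟨c', x, y, e, ⟨h1, h2, h3, h4⟩, -⟩ | ⟨c', x, y, e, ⟨h1, h2, h3, h4⟩, -⟩
  · rw [if_neg (by omega), h0]
  · rw [if_neg (by omega), h0]
  · rw [if_neg (by omega), h0]
  · rw [if_neg (by omega), h0]

private theorem val_scale {a b c d k A B C D : ℤ} {v : R} (h : Val F a b c d v)
    (hk : ¬ (7 : ℤ) ∣ k) (hA : A = k * a) (hB : B = k * b) (hC : C = k * c) (hD : D = k * d) :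
    Val F A B C D v := by
  subst hA hB hC hD
  rcases h with ⟨c', x, y, e, hp, rfl⟩ | ⟨c', x, y, e, hp, rfl⟩ | ⟨c', x, y, e, hp, rfl⟩ |
    ⟨c', x, y, e, hp, rfl⟩
  · exact Or.inl ⟨k * c', x, y, by rw [e]; ring, pt_scale hp hk rfl rfl rfl rfl, rfl⟩
  · exact Or.inr (Or.inl ⟨k * c', x, y, by rw [e]; ring,
      pt_scale hp hk (by ring) rfl rfl rfl, rfl⟩)
  · exact Or.inr (Or.inr (Or.inl ⟨k * c', x, y, by rw [e]; ring,
      pt_scale hp hk (by ring) rfl rfl rfl, rfl⟩))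
  · exact Or.inr (Or.inr (Or.inr ⟨k * c', x, y, by linear_combination k * e,
      pt_scale hp hk (by ring) (by ring) rfl (by ring), rfl⟩))

private theorem val_left {a b c d α β γ δ A B C D : ℤ} {v : R} (h : Val F a b c d v)
    (hα : ¬ (7 : ℤ) ∣ α) (hδ : ¬ (7 : ℤ) ∣ δ)
    (hA : A = α * a + 7 ^ r * β * c) (hB : B = α * b + 7 ^ r * β * d)
    (hC : C = 7 ^ (s + 1) * γ * a + δ * c) (hD : D = 7 ^ (s + 1) * γ * b + δ * d) :
    Val F A B C D v := by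
  subst hA hB hC hD
  rcases h with ⟨c', x, y, e, hp, rfl⟩ | ⟨c', x, y, e, hp, rfl⟩ | ⟨c', x, y, e, hp, rfl⟩ |
    ⟨c', x, y, e, hp, rfl⟩
  · refine Or.inl ⟨7 ^ s * γ * a + δ * c', x, y, by rw [e]; ring, ?_, rfl⟩
    exact pt_left hp hα hδ (by rw [e]) rfl rfl rfl
  · refine Or.inr (Or.inl ⟨7 ^ s * γ * (a - 2 * b) + δ * c', x, y, by rw [e]; ring, ?_, rfl⟩)
    exact pt_left hp hα hδ (by rw [e]; ring) rfl rfl rfl
  · refine Or.inr (Or.inr (Or.inl ⟨7 ^ s * γ * (a - 4 * b) + δ * c', x, y,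
      by rw [e]; ring, ?_, rfl⟩))
    exact pt_left hp hα hδ (by rw [e]; ring) rfl rfl rfl
  · refine Or.inr (Or.inr (Or.inr ⟨7 ^ s * γ * (a + 2 * b) + δ * c', x, y,
      by linear_combination δ * e, ?_, rfl⟩))
    exact pt_left (α := α) (β := β) (γ := γ) (δ := δ) hp hα hδ
      (by linear_combination (7 ^ r * β) * e) (by ring) rfl (by ring)

private theorem cls1 : ∀ c d : ZMod 7, (c = 0 ∧ d = 0) ∨ c = 0 ∨ c - 2 * d = 0 ∨
    c - 4 * d = 0 ∨ c + 2 * d = 0 ∨ d = 0 ∨ c + d = 0 ∨ c - 3 * d = 0 ∨ c - d = 0 := by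
  decide

private theorem e7d : ∀ z : ℤ, ((z : ℤ) : ZMod 7) = 0 → (7 : ℤ) ∣ z := fun z hz =>
  (ZMod.intCast_zmod_eq_zero_iff_dvd z 7).1 hz

private theorem cl (c d : ℤ) : ((7 : ℤ) ∣ c ∧ (7 : ℤ) ∣ d) ∨ (7 : ℤ) ∣ c ∨ (7 : ℤ) ∣ c - 2 * d ∨
    (7 : ℤ) ∣ c - 4 * d ∨ (7 : ℤ) ∣ c + 2 * d ∨ (7 : ℤ) ∣ d ∨ (7 : ℤ) ∣ c + d ∨
    (7 : ℤ) ∣ c - 3 * d ∨ (7 : ℤ) ∣ c - d := by
  rcases cls1 c d with ⟨p, q⟩ | p | p | p | p | p | p | p | p
  · exact Or.inl ⟨e7d _ p, e7d _ q⟩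
  · exact Or.inr (Or.inl (e7d _ p))
  · exact Or.inr (Or.inr (Or.inl (e7d _ (by push_cast; exact p))))
  · exact Or.inr (Or.inr (Or.inr (Or.inl (e7d _ (by push_cast; exact p)))))
  · exact Or.inr (Or.inr (Or.inr (Or.inr (Or.inl (e7d _ (by push_cast; exact p))))))
  · exact Or.inr (Or.inr (Or.inr (Or.inr (Or.inr (Or.inl (e7d _ p))))))
  · exact Or.inr (Or.inr (Or.inr (Or.inr (Or.inr (Or.inr (Or.inl
      (e7d _ (by push_cast; exact p))))))))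
  · exact Or.inr (Or.inr (Or.inr (Or.inr (Or.inr (Or.inr (Or.inr (Or.inl
      (e7d _ (by push_cast; exact p)))))))))
  · exact Or.inr (Or.inr (Or.inr (Or.inr (Or.inr (Or.inr (Or.inr (Or.inr
      (e7d _ (by push_cast; exact p)))))))))

private theorem fwd {a b c d : ℤ} (h : ¬ (7 : ℤ) ∣ a * d - b * c)
    (hc : (7 : ℤ) ∣ c ∨ (7 : ℤ) ∣ c - 2 * d ∨ (7 : ℤ) ∣ c - 4 * d ∨ (7 : ℤ) ∣ c + 2 * d) :
    ∃ v, Val F a b c d v := by
  rcases hc with ⟨c', hc'⟩ | ⟨c', hc'⟩ | ⟨c', hc'⟩ | ⟨c', hc'⟩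
  · have hr := res (a := a) (b := b) (c := c') (d := d) (by
      have : a * d - 7 * (b * c') = a * d - b * c := by rw [hc']; ring
      rwa [this])
    obtain ⟨x, y, hp⟩ := pt_mk r s (b := b) (c := c') hr.1 hr.2
    exact ⟨_, Or.inl ⟨c', x, y, hc', hp, rfl⟩⟩
  · have hr := res (a := a - 2 * b) (b := b) (c := c') (d := d) (by
      have : (a - 2 * b) * d - 7 * (b * c') = a * d - b * c := by linear_combination b * hc'
      rwa [this])
    obtain ⟨x, y, hp⟩ := pt_mk r s (b := b) (c := c') hr.1 hr.2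
    exact ⟨_, Or.inr (Or.inl ⟨c', x, y, by omega, hp, rfl⟩)⟩
  · have hr := res (a := a - 4 * b) (b := b) (c := c') (d := d) (by
      have : (a - 4 * b) * d - 7 * (b * c') = a * d - b * c := by linear_combination b * hc'
      rwa [this])
    obtain ⟨x, y, hp⟩ := pt_mk r s (b := b) (c := c') hr.1 hr.2
    exact ⟨_, Or.inr (Or.inr (Or.inl ⟨c', x, y, by omega, hp, rfl⟩))⟩
  · have hr := res (a := a + 2 * b) (b := -a - b) (c := c') (d := -c - d) (by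
      have : (a + 2 * b) * (-c - d) - 7 * ((-a - b) * c') = a * d - b * c := by
        linear_combination (-a - b) * hc'
      rwa [this])
    obtain ⟨x, y, hp⟩ := pt_mk r s (b := -a - b) (c := c') hr.1 hr.2
    exact ⟨_, Or.inr (Or.inr (Or.inr ⟨c', x, y, hc', hp, rfl⟩))⟩

private theorem cls {a b c d : ℤ} (h : ¬ (7 : ℤ) ∣ a * d - b * c) :
    (∃ v, Val F a b c d v) ∨ (∃ v, Val F (2 * b) (-a) (2 * d) (-c) v) := by
  have h2 : ¬ (7 : ℤ) ∣ 2 * b * -c - -a * (2 * d) := by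
    have : 2 * b * -c - -a * (2 * d) = 2 * (a * d - b * c) := by ring
    rw [this]
    exact ndm (by decide) h
  rcases cl c d with ⟨⟨c', hc⟩, ⟨d', hd⟩⟩ | p | p | p | p | p | p | p | p
  · exact absurd ⟨a * d' - b * c', by rw [hc, hd]; ring⟩ h
  · exact Or.inl (fwd h (Or.inl p))
  · exact Or.inl (fwd h (Or.inr (Or.inl p)))
  · exact Or.inl (fwd h (Or.inr (Or.inr (Or.inl p))))
  · exact Or.inl (fwd h (Or.inr (Or.inr (Or.inr p))))
  · exact Or.inr (fwd h2 (Or.inl (by omega)))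
  · exact Or.inr (fwd h2 (Or.inr (Or.inl (by omega))))
  · exact Or.inr (fwd h2 (Or.inr (Or.inr (Or.inl (by omega)))))
  · exact Or.inr (fwd h2 (Or.inr (Or.inr (Or.inr (by omega)))))

private theorem V_scale {a b c d : ℤ} (h : ¬ (7 : ℤ) ∣ a * d - b * c) (k : ℤ)
    (hk : ¬ (7 : ℤ) ∣ k) {A B C D : ℤ} (hA : A = k * a) (hB : B = k * b) (hC : C = k * c)
    (hD : D = k * d) : V F A B C D = V F a b c d := by
  rcases cls (F := F) h with ⟨v, hv⟩ | ⟨v, hv⟩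
  · rw [val_V hv, val_V (val_scale hv hk hA hB hC hD)]
  · rw [val_VS hv]
    exact val_VS (val_scale hv hk (by rw [hB]; ring) (by rw [hA]; ring) (by rw [hD]; ring)
      (by rw [hC]; ring))

private theorem V_S {a b c d : ℤ} (h : ¬ (7 : ℤ) ∣ a * d - b * c) {A B C D : ℤ}
    (hA : A = 2 * b) (hB : B = -a) (hC : C = 2 * d) (hD : D = -c) :
    V F A B C D = -V F a b c d := by
  subst hA hB hC hD
  rcases cls (F := F) h with ⟨v, hv⟩ | ⟨v, hv⟩
  · rw [val_V hv]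
    exact val_VS (val_scale (k := -2) hv (by decide) (by ring) (by ring) (by ring) (by ring))
  · rw [val_VS hv, val_V hv, neg_neg]

private theorem V_left {a b c d α β γ δ A B C D : ℤ} (h : ¬ (7 : ℤ) ∣ a * d - b * c)
    (hα : ¬ (7 : ℤ) ∣ α) (hδ : ¬ (7 : ℤ) ∣ δ) (hβ : (7 : ℤ) ^ r ∣ β) (hγ : (7 : ℤ) ^ (s + 1) ∣ γ)
    (hA : A = α * a + β * c) (hB : B = α * b + β * d)
    (hC : C = γ * a + δ * c) (hD : D = γ * b + δ * d) :
    V F A B C D = V F a b c d := by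
  obtain ⟨β', rfl⟩ := hβ
  obtain ⟨γ', rfl⟩ := hγ
  rcases cls (F := F) h with ⟨v, hv⟩ | ⟨v, hv⟩
  · rw [val_V hv, val_V (val_left hv hα hδ hA hB hC hD)]
  · rw [val_VS hv]
    exact val_VS (val_left (β := β') (γ := γ') hv hα hδ (by rw [hB]; ring) (by rw [hA]; ring)
      (by rw [hD]; ring) (by rw [hC]; ring))

/-! ### values -/

private theorem ev0 {a b c d : ℤ} {x : ZMod (7 ^ r)} {y : ZMod (7 ^ s)} (hp : Pt a b c d x y)
    {A B C D : ℤ} (hA : A = a) (hB : B = b) (hC : C = 7 * c) (hD : D = d) :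
    V F A B C D = F 0 x y := by
  subst hA hB hC hD
  exact val_V (Or.inl ⟨c, x, y, rfl, hp, rfl⟩)

private theorem ev2 {a b c d : ℤ} {x : ZMod (7 ^ r)} {y : ZMod (7 ^ s)} (hp : Pt a b c d x y)
    {A B C D : ℤ} (hA : A = a + 2 * b) (hB : B = b) (hC : C = 7 * c + 2 * d) (hD : D = d) :
    V F A B C D = F 1 x y := by
  subst hA hB hC hD
  exact val_V (Or.inr (Or.inl ⟨c, x, y, rfl,
    pt_scale (k := 1) hp (by decide) (by ring) (by ring) (by ring) (by ring), rfl⟩))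

private theorem ev4 {a b c d : ℤ} {x : ZMod (7 ^ r)} {y : ZMod (7 ^ s)} (hp : Pt a b c d x y)
    {A B C D : ℤ} (hA : A = a + 4 * b) (hB : B = b) (hC : C = 7 * c + 4 * d) (hD : D = d) :
    V F A B C D = F 2 x y := by
  subst hA hB hC hD
  exact val_V (Or.inr (Or.inr (Or.inl ⟨c, x, y, rfl,
    pt_scale (k := 1) hp (by decide) (by ring) (by ring) (by ring) (by ring), rfl⟩)))

private theorem ev5 {a b c d : ℤ} {x : ZMod (7 ^ r)} {y : ZMod (7 ^ s)} (hp : Pt a b c d x y)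
    {A B C D : ℤ} (hA : A = a + 2 * b) (hB : B = -a - b) (hC : C = 7 * c + 2 * d)
    (hD : D = -(7 * c) - d) :
    V F A B C D = -kH F x y := by
  subst hA hB hC hD
  exact val_V (Or.inr (Or.inr (Or.inr ⟨-c, x, y, by ring,
    pt_scale (k := -1) hp (by decide) (by ring) (by ring) (by ring) (by ring), rfl⟩)))

/-! ### the square relation -/

private def Sq (F : Fin 3 → ZMod (7 ^ r) → ZMod (7 ^ s) → R) (a b c d : ℤ) : Prop :=
  V F a b c d + V F (2 * a + 2 * b) (-a) (2 * c + 2 * d) (-c)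
    + V F (a + 2 * b) (-a - b) (c + 2 * d) (-c - d)
    + V F (2 * b) (-a - 2 * b) (2 * d) (-c - 2 * d) = 0

private theorem ndet {a b c d : ℤ} (h : ¬ (7 : ℤ) ∣ a * d - b * c) (k : ℤ)
    (hk : ¬ (7 : ℤ) ∣ k) {m : ℤ} (hm : m = k * (a * d - b * c)) : ¬ (7 : ℤ) ∣ m := by
  rw [hm]
  exact ndm hk h

private theorem sq_rot {a b c d : ℤ} (h : ¬ (7 : ℤ) ∣ a * d - b * c)
    (hs : Sq F (2 * a + 2 * b) (-a) (2 * c + 2 * d) (-c)) : Sq F a b c d := by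
  unfold Sq at hs ⊢
  rw [V_scale (F := F) (a := a + 2 * b) (b := -a - b) (c := c + 2 * d) (d := -c - d)
      (ndet h 1 (by decide) (by ring)) 2 (by decide)
      (A := 2 * (2 * a + 2 * b) + 2 * -a) (B := -(2 * a + 2 * b))
      (C := 2 * (2 * c + 2 * d) + 2 * -c) (D := -(2 * c + 2 * d))
      (by ring) (by ring) (by ring) (by ring),
    V_scale (F := F) (a := a) (b := b) (c := c) (d := d) h (-2) (by decide)
      (A := 2 * -a) (B := -(2 * a + 2 * b) - 2 * -a)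
      (C := 2 * -c) (D := -(2 * c + 2 * d) - 2 * -c)
      (by ring) (by ring) (by ring) (by ring)] at hs
  have e1 : 2 * a + 2 * b + 2 * -a = 2 * b := by ring
  have e2 : -(2 * a + 2 * b) - -a = -a - 2 * b := by ring
  have e3 : 2 * c + 2 * d + 2 * -c = 2 * d := by ring
  have e4 : -(2 * c + 2 * d) - -c = -c - 2 * d := by ring
  rw [e1, e2, e3, e4] at hs
  rw [← hs]
  abel

private theorem pt_det {a b c d : ℤ} {x : ZMod (7 ^ r)} {y : ZMod (7 ^ s)}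
    (hp : Pt a b c d x y) : ¬ (7 : ℤ) ∣ a * d - b * (7 * c) := by
  intro h
  exact ndm hp.1 hp.2.1 ((dvd_sub_left (⟨b * c, by ring⟩ : (7 : ℤ) ∣ b * (7 * c))).1 h)

private theorem sq0 {a b c d : ℤ} {x : ZMod (7 ^ r)} {y : ZMod (7 ^ s)}
    (hp : Pt a b c d x y) : Sq F a b (7 * c) d := by
  have hd := pt_det hp
  have hm := pt_mul hp (α := 1) (β := 1) (γ := 0) (δ := 1) (by decide) (by decide)
  unfold Sq
  rw [ev0 hp rfl rfl rfl rfl,
    V_S (F := F) (a := a) (b := a + b) (c := 7 * c) (d := 7 * c + d)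
      (ndet hd 1 (by decide) (by ring)) (by ring) (by ring) (by ring) (by ring),
    ev0 hm (by ring) (by ring) (by ring) (by ring),
    ev5 hp rfl rfl rfl rfl,
    V_S (F := F) (a := a + 2 * b) (b := b) (c := 7 * c + 2 * d) (d := d)
      (ndet hd 1 (by decide) (by ring)) (by ring) (by ring) (by ring) (by ring),
    ev2 hp rfl rfl rfl rfl]
  unfold kH tr7
  abel

private theorem sq2 (ht : S7Trm) (hR : RelH F) {a b c d : ℤ} {x : ZMod (7 ^ r)}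
    {y : ZMod (7 ^ s)} (hp : Pt a b c d x y) : Sq F (a + 2 * b) b (7 * c + 2 * d) d := by
  have hd := pt_det hp
  have m1 := pt_mul hp (α := 6) (β := -1) (γ := 2) (δ := -2) (by decide) (by decide)
  have m2 := pt_mul hp (α := 4) (β := -3) (γ := 2) (δ := -10) (by decide) (by decide)
  have hV2 : V F (a + 2 * b + 2 * b) (-(a + 2 * b) - b) (7 * c + 2 * d + 2 * d)
      (-(7 * c + 2 * d) - d) = tr7 4 (-3) 2 (-10) (kH F) x y := by
    have h1 := V_S (F := F) (a := a + 2 * b + 2 * b) (b := -(a + 2 * b) - b)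
      (c := 7 * c + 2 * d + 2 * d) (d := -(7 * c + 2 * d) - d)
      (ndet hd 1 (by decide) (by ring)) rfl rfl rfl rfl
    rw [ev5 m2 (by ring) (by ring) (by ring) (by ring)] at h1
    rw [neg_inj] at h1
    exact h1.symm
  have hc : tr7 4 (-3) 2 (-10) (tr7 1 1 0 1 (F 0)) x y = tr7 4 1 2 4 (F 0) x y := by
    have h1 := (ht R r s (F 0)).1 4 (-3) 2 (-10) 1 1 0 1 (by decide) (by decide) (by decide)
      (by decide)
    rw [h1]
    norm_num
  unfold Sq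
  rw [ev2 hp rfl rfl rfl rfl, ev4 m1 (by ring) (by ring) (by ring) (by ring), hV2,
    V_S (F := F) (a := a + 2 * b + 2 * b) (b := b) (c := 7 * c + 2 * d + 2 * d) (d := d)
      (ndet hd 1 (by decide) (by ring)) (by ring) (by ring) (by ring) (by ring),
    ev4 hp (by ring) rfl (by ring) rfl]
  have h := hR x y
  unfold DfH at h
  have hk : tr7 4 (-3) 2 (-10) (kH F) x y = tr7 4 (-3) 2 (-10) (F 0) x y
      - tr7 4 (-3) 2 (-10) (tr7 1 1 0 1 (F 0)) x y - tr7 4 (-3) 2 (-10) (F 1) x y := rfl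
  have hδ : tr7 6 (-1) 2 (-2) (F 2) x y = F 2
      ((((-1 : ℤ) : ZMod (7 ^ r)) + ((-2 : ℤ) : ZMod (7 ^ r)) * x) *
        (((6 : ℤ) : ZMod (7 ^ r)) + 7 * ((2 : ℤ) : ZMod (7 ^ r)) * x)⁻¹)
      ((((2 : ℤ) : ZMod (7 ^ s)) + ((6 : ℤ) : ZMod (7 ^ s)) * y) *
        (((-2 : ℤ) : ZMod (7 ^ s)) + 7 * ((-1 : ℤ) : ZMod (7 ^ s)) * y)⁻¹) := rfl
  rw [hk, hc, ← hδ, ← h]
  abel

private theorem sq_all (ht : S7Trm) (hR : RelH F) {a b c d : ℤ}
    (h : ¬ (7 : ℤ) ∣ a * d - b * c) : Sq F a b c d := by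
  have k0 : ∀ {a b c d : ℤ}, ¬ (7 : ℤ) ∣ a * d - b * c → (7 : ℤ) ∣ c → Sq F a b c d := by
    intro a b c d h hc
    obtain ⟨c', rfl⟩ := hc
    have hr := res (a := a) (b := b) (c := c') (d := d) (ndet h 1 (by decide) (by ring))
    obtain ⟨x, y, hp⟩ := pt_mk r s (b := b) (c := c') hr.1 hr.2
    exact sq0 hp
  have k6 : ∀ {a b c d : ℤ}, ¬ (7 : ℤ) ∣ a * d - b * c → (7 : ℤ) ∣ c + d → Sq F a b c d := by
    intro a b c d h hc
    exact sq_rot h (k0 (ndet h 2 (by decide) (by ring)) (by omega))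
  have k5 : ∀ {a b c d : ℤ}, ¬ (7 : ℤ) ∣ a * d - b * c → (7 : ℤ) ∣ c + 2 * d →
      Sq F a b c d := by
    intro a b c d h hc
    exact sq_rot h (k6 (ndet h 2 (by decide) (by ring)) (by omega))
  have k7 : ∀ {a b c d : ℤ}, ¬ (7 : ℤ) ∣ a * d - b * c → (7 : ℤ) ∣ d → Sq F a b c d := by
    intro a b c d h hc
    exact sq_rot h (k5 (ndet h 2 (by decide) (by ring)) (by omega))
  have k2 : ∀ {a b c d : ℤ}, ¬ (7 : ℤ) ∣ a * d - b * c → (7 : ℤ) ∣ c - 2 * d →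
      Sq F a b c d := by
    intro a b c d h hc
    obtain ⟨c', hc'⟩ := hc
    obtain rfl : c = 7 * c' + 2 * d := by omega
    obtain ⟨a', rfl⟩ : ∃ a', a = a' + 2 * b := ⟨a - 2 * b, by ring⟩
    have hr := res (a := a') (b := b) (c := c') (d := d) (ndet h 1 (by decide) (by ring))
    obtain ⟨x, y, hp⟩ := pt_mk r s (b := b) (c := c') hr.1 hr.2
    exact sq2 ht hR hp
  have k3 : ∀ {a b c d : ℤ}, ¬ (7 : ℤ) ∣ a * d - b * c → (7 : ℤ) ∣ c - 3 * d →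
      Sq F a b c d := by
    intro a b c d h hc
    exact sq_rot h (k2 (ndet h 2 (by decide) (by ring)) (by omega))
  have k1 : ∀ {a b c d : ℤ}, ¬ (7 : ℤ) ∣ a * d - b * c → (7 : ℤ) ∣ c - d → Sq F a b c d := by
    intro a b c d h hc
    exact sq_rot h (k3 (ndet h 2 (by decide) (by ring)) (by omega))
  have k4 : ∀ {a b c d : ℤ}, ¬ (7 : ℤ) ∣ a * d - b * c → (7 : ℤ) ∣ c - 4 * d →
      Sq F a b c d := by
    intro a b c d h hc
    exact sq_rot h (k1 (ndet h 2 (by decide) (by ring)) (by omega))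
  rcases cl c d with ⟨⟨c', hc⟩, ⟨d', hd⟩⟩ | p | p | p | p | p | p | p | p
  · exact absurd ⟨a * d' - b * c', by rw [hc, hd]; ring⟩ h
  · exact k0 h p
  · exact k2 h p
  · exact k4 h p
  · exact k5 h p
  · exact k7 h p
  · exact k6 h p
  · exact k3 h p
  · exact k1 h p

end

private theorem one7 {m : ℤ} (h : m = 1) : ¬ (7 : ℤ) ∣ m := by
  rw [h]
  decide

/-- Module ExA. -/
theorem hExA (ht : S7Trm) : TExA := by
  intro R _ r s F hR
  refine ⟨V F, ?_, ?_, ?_, ?_, ?_⟩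
  · intro a b c d h _
    exact V_scale (one7 h) (-1) (by decide) (by ring) (by ring) (by ring) (by ring)
  · intro a b c d h _
    have h1 := sq_all ht hR (one7 h)
    unfold Sq at h1
    have t1 : V F (2 * a + 2 * b) (-a) (2 * c + 2 * d) (-c) = -V F a (a + b) c (c + d) :=
      V_S (ndet (one7 h) 1 (by decide) (by ring)) (by ring) (by ring) (by ring) (by ring)
    have t2 : V F (2 * b) (-a - 2 * b) (2 * d) (-c - 2 * d) = -V F (a + 2 * b) b (c + 2 * d) d :=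
      V_S (ndet (one7 h) 1 (by decide) (by ring)) (by ring) (by ring) (by ring) (by ring)
    rw [t1, t2] at h1
    have e1 : -(a + b) = -a - b := by ring
    have e2 : -(c + d) = -c - d := by ring
    rw [e1, e2]
    rw [← sub_eq_zero, ← h1]
    abel
  · intro α β γ δ a b c d hg _ hβ hγ h _
    obtain ⟨γ', hγ'⟩ := hγ
    have hr := res (a := α) (b := β * 7 ^ s) (c := γ') (d := δ) (one7 (by
      rw [← hg, hγ']; ring))
    exact V_left (one7 h) hr.1 hr.2 hβ ⟨γ', hγ'⟩ rfl rfl rfl rfl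
  · intro α β γ δ a b c d hg hβ hγ h
    obtain ⟨γ', hγ'⟩ := hγ
    have hr := res (a := 2 * α) (b := β * 7 ^ s) (c := γ') (d := δ) (one7 (by
      rw [← hg, hγ']; ring))
    have hd : ¬ (7 : ℤ) ∣ 2 * δ := ndm (by decide) hr.2
    have hN : ¬ (7 : ℤ) ∣ a * d - b * (2 * c) := one7 (by linear_combination h)
    have hdet : (2 * α * a + β * (2 * c)) * (2 * γ * b + 2 * δ * d) -
        (2 * α * b + β * d) * (2 * γ * a + 2 * δ * (2 * c)) =
        2 * (a * d - b * (2 * c)) := by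
      linear_combination 2 * (a * d - b * (2 * c)) * hg
    have h1 : V F (2 * α * a + β * (2 * c)) (2 * α * b + β * d) (2 * γ * a + 2 * δ * (2 * c))
        (2 * γ * b + 2 * δ * d) = V F a b (2 * c) d :=
      V_left hN hr.1 hd hβ ⟨2 * γ', by rw [hγ']; ring⟩ rfl rfl rfl rfl
    rw [← h1]
    have hN2 : ¬ (7 : ℤ) ∣ (2 * α * a + β * (2 * c)) * (2 * γ * b + 2 * δ * d) -
        (2 * α * b + β * d) * (2 * γ * a + 2 * δ * (2 * c)) := by
      rw [hdet]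
      exact ndm (by decide) hN
    rw [← V_S (F := F) hN2 rfl rfl rfl rfl]
    symm
    refine V_scale ?_ 2 (by decide) (by ring) (by ring) (by ring) (by ring)
    have : (2 * α * b + β * d) * -(γ * a + 2 * δ * c) - -(α * a + β * c) * (2 * (γ * b + δ * d)) =
        1 := by
      linear_combination (a * d - 2 * b * c) * hg + h
    rw [this]
    decide
  · intro x y a b c d h _ hx hy
    have hr := res (a := a) (b := b) (c := c) (d := d) (one7 (by linear_combination h))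
    have hp : Pt a b c d x y := ⟨hr.1, hr.2, hx, hy⟩
    exact ⟨ev0 hp rfl rfl rfl rfl, ev2 hp rfl rfl rfl rfl, ev4 hp rfl rfl rfl rfl⟩

end Pool.Agent.Helper16.TH7
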